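import Mathlib

set_option autoImplicit false

namespace Pool.Agent.Results.MP_df7fe8_co.Counter

open Classical

inductive L : Type
  | low (A : Finset (ℕ → ℕ))
  | mid (f : ℕ → ℕ) (k : ℕ) (i : Fin (f k))
  | high (m : ℕ)

open L

def le' : L → L → Prop
  | low A, low B => B ⊆ A
  | low A, mid f _ _ => f ∈ A
  | low _, high _ => True
  | mid f k i, mid g l j => f = g ∧ k = l ∧ i.1 ≤ j.1
  | mid _ k _, high m => k ≤ m
  | high m, high n => m ≤ n
  | _, _ => False

instance : PartialOrder L where
  le := le'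
  le_refl x := by cases x <;> simp [le']
  le_trans x y z := by cases x <;> cases y <;> cases z <;> simp only [le'] <;> grind
  le_antisymm x y := by
    cases x <;> cases y <;> simp only [le', false_imp_iff, imp_true_iff]
    · exact fun h1 h2 => by rw [h2.antisymm h1]
    · rintro ⟨rfl, rfl, h1⟩ ⟨-, -, h2⟩
      rw [Fin.ext (h1.antisymm h2)]
    · exact fun h1 h2 => by rw [h1.antisymm h2]

lemma le_def (x y : L) : x ≤ y ↔ le' x y := Iff.rfl

noncomputable def sup0 : L → L → L
  | low A, low B => low (A ∩ B)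
  | low _, mid _ k _ => high k
  | mid _ k _, low _ => high k
  | mid _ k _, mid _ l _ => high (max k l)
  | mid _ k _, high _ => high k
  | high _, mid _ k _ => high k
  | high m, _ => high m
  | _, high m => high m

noncomputable def inf0 : L → L → L
  | low A, low B => low (A ∪ B)
  | low A, mid f _ _ => low (insert f A)
  | mid f _ _, low A => low (insert f A)
  | mid f _ _, mid g _ _ => low {f, g}
  | mid f _ _, high _ => low {f}
  | high _, mid f _ _ => low {f}
  | low A, high _ => low A
  | high m, _ => high m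

lemma sup_spec (x y : L) (h1 : ¬ x ≤ y) (h2 : ¬ y ≤ x) (z : L) :
    sup0 x y ≤ z ↔ x ≤ z ∧ y ≤ z := by
  cases x <;> cases y <;> cases z <;>
    simp only [le_def, le', sup0, Finset.subset_inter_iff, Finset.mem_inter] at * <;> grind

lemma inf_spec (x y : L) (h1 : ¬ x ≤ y) (h2 : ¬ y ≤ x) (z : L) :
    z ≤ inf0 x y ↔ z ≤ x ∧ z ≤ y := by
  cases x <;> cases y <;> cases z <;>
    simp only [le_def, le', inf0, Finset.union_subset_iff, Finset.insert_subset_iff,
      Finset.singleton_subset_iff] at * <;> grind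

@[reducible] noncomputable def lat : Lattice L :=
  Lattice.ofIsLUBofIsGLB
    (fun x y => if x ≤ y then y else if y ≤ x then x else sup0 x y)
    (fun x y => if x ≤ y then x else if y ≤ x then y else inf0 x y)
    (fun x y => by
      rw [isLUB_iff_le_iff]
      intro z
      simp only [mem_upperBounds, Set.mem_insert_iff, Set.mem_singleton_iff, forall_eq_or_imp,
        forall_eq]
      split_ifs with h1 h2
      · exact ⟨fun h => ⟨h1.trans h, h⟩, fun h => h.2⟩
      · exact ⟨fun h => ⟨h, h2.trans h⟩, fun h => h.1⟩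
      · exact sup_spec x y h1 h2 z)
    (fun x y => by
      rw [isGLB_iff_le_iff]
      intro z
      simp only [mem_lowerBounds, Set.mem_insert_iff, Set.mem_singleton_iff, forall_eq_or_imp,
        forall_eq]
      split_ifs with h1 h2
      · exact ⟨fun h => ⟨h, h.trans h1⟩, fun h => h.1⟩
      · exact ⟨fun h => ⟨h.trans h2, h⟩, fun h => h.2⟩
      · exact inf_spec x y h1 h2 z)

lemma fin_Icc (x y : L) : (Set.Icc x y).Finite := by
  obtain ⟨A, hA⟩ : ∃ A, low A ≤ x := by
    cases x with
    | low A => exact ⟨A, le_rfl⟩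
    | mid f k i => exact ⟨{f}, Finset.mem_singleton_self f⟩
    | high m => exact ⟨∅, trivial⟩
  obtain ⟨m, hm⟩ : ∃ m, y ≤ high m := by
    cases y with
    | low A => exact ⟨0, trivial⟩
    | mid f k i => exact ⟨k, le_refl k⟩
    | high m => exact ⟨m, le_rfl⟩
  refine Set.Finite.subset (((A.powerset.finite_toSet.image low).union
    (A.finite_toSet.biUnion fun f _ => (Set.finite_Iic m).biUnion fun k _ =>
      Set.finite_range (mid f k))).union ((Set.finite_Iic m).image high)) fun z hz => ?_
  have h1 := hA.trans hz.1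
  have h2 := hz.2.trans hm
  cases z with
  | low B => exact Or.inl (Or.inl ⟨B, Finset.mem_coe.mpr (Finset.mem_powerset.mpr h1), rfl⟩)
  | mid f k i => exact Or.inl (Or.inr (Set.mem_biUnion h1 (Set.mem_biUnion h2 ⟨i, rfl⟩)))
  | high n => exact Or.inr ⟨n, h2, rfl⟩

lemma no_map (F : L → ℤ) (h : StrictMono F) : False := by
  let f : ℕ → ℕ := fun k => (F (high k)).natAbs + k + 1
  have step : ∀ k i (hi : i < f k), F (low {f}) + i < F (mid f k ⟨i, hi⟩) := by
    intro k i
    induction i with
    | zero =>
      intro hi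
      simpa using h (lt_of_le_of_ne (Finset.mem_singleton_self f) (by simp) :
        low {f} < mid f k ⟨0, hi⟩)
    | succ i ih =>
      intro hi
      have := ih (by omega)
      have := h (lt_of_le_of_ne ⟨rfl, rfl, Nat.le_succ i⟩ (by simp) :
        mid f k ⟨i, by omega⟩ < mid f k ⟨i + 1, hi⟩)
      omega
  let k := (F (low {f})).natAbs
  have a := step k ((F (high k)).natAbs + k) (Nat.lt_succ_self _)
  have b := h.monotone (show mid f k ⟨(F (high k)).natAbs + k, Nat.lt_succ_self _⟩ ≤ high k from
    le_refl k)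
  omega

theorem result : ∃ (L : Type) (_ : Lattice L), (∀ x y : L, (Set.Icc x y).Finite) ∧
    (∀ x y : L, x ≤ y → ∃ n : ℕ, ∀ c ⊆ Set.Icc x y, IsChain (· ≤ ·) c → c.encard ≤ n + 1) ∧
    ¬ ∃ f : L → ℤ, StrictMono f := by
  refine ⟨L, lat, fin_Icc, fun x y _ => ⟨(Set.Icc x y).ncard, fun c hc _ => ?_⟩,
    fun ⟨f, hf⟩ => no_map f hf⟩
  rw [(fin_Icc x y).cast_ncard_eq]
  exact (Set.encard_le_encard hc).trans le_self_add

end Pool.Agent.Results.MP_df7fe8_co.Counter
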